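import Pool.Agent.H809.Transfer

/-!
A surface-by-surface group with nonzero signature and four distinct fibre subgroups.
-/

namespace Pool.Agent.Results.MP_5caa59_gt.FourFiberingsSignature

open Pool.Agent.H809.Bundle

theorem result :
    ∃ (K Q : Type) (_ : Group K) (_ : Group Q) (a b : Fin 15 → K) (x y : Fin 2 → Q)
      (ρ : Q →* MulAut K), IsBundle 4 40 44 a b x y ρ :=
  ⟨_, _, _, _, _, _, _, _, _, Pool.Agent.H809.isBundle_rho⟩

end Pool.Agent.Results.MP_5caa59_gt.FourFiberingsSignature
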